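import Pool.Agent.helper4.EC.Spec

/-!
# S3: three consecutive sets of a tight walk
-/

set_option autoImplicit false

namespace Pool.Agent.helper4.EC

open Finset

universe u

theorem S3 (h1 : SA_stmt.{u}) (h2 : TB_stmt.{u}) : S3_stmt.{u} := by
  intro V _ G hG hI hD hB X Y Z p q p' q' hX hY hZ hS1 hYd hS2 hZd hne hna
  obtain ⟨hpX, hqX, hpq, hiq⟩ := hS1
  obtain ⟨hpY, hqY, hpq', hiq'⟩ := hS2
  have hqe : q ∉ X.erase p := fun h => hqX (mem_of_mem_erase h)
  have hqmY : q ∈ Y := by
    rw [hYd]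
    exact mem_insert_self _ _
  have hpne : p ≠ q := hpq.ne
  have hYe : Y.erase q = X.erase p := by
    rw [hYd, erase_insert hqe]
  have hne' : p' ≠ q := by
    intro h
    subst h
    rw [hYe] at hZd
    by_cases h3 : q' = p
    · apply hne
      rw [hZd, h3, insert_erase hpX]
    · have h4 : q' ∉ X := by
        intro h5
        apply hqY
        rw [hYd]
        exact mem_insert_of_mem (mem_erase.2 ⟨h3, h5⟩)
      obtain ⟨u, hu, hadj⟩ := hX.1.2 q' h4
      have hup : u = p := by
        by_contra h5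
        have h6 : u ∈ Z := by
          rw [hZd]
          exact mem_insert_of_mem (mem_erase.2 ⟨h5, hu⟩)
        have h7 : q' ∈ Z := by
          rw [hZd]
          exact mem_insert_self _ _
        exact hZ.1.1 u h6 q' h7 hadj
      subst hup
      apply hna hX hZ
      rw [h1]
      refine ⟨u, q', ⟨hpX, h4, hadj, ?_⟩, hZd⟩
      rw [← hZd]
      exact hZ
  have hpnY : p ∉ Y := by
    rw [hYd, mem_insert, mem_erase]
    rintro (h | h)
    · exact hpne h
    · exact h.1 rfl
  have hS3 : Sl G Y q p := by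
    refine ⟨hqmY, hpnY, hpq.symm, ?_⟩
    rw [hYe, insert_erase hpX]
    exact hX
  obtain ⟨v, hv1, hv2, hv3, hv4⟩ := h2 V G hG hI hD hB Y q p p' q' hY hS3
    ⟨hpY, hqY, hpq', hiq'⟩ (Ne.symm hne')
  refine ⟨v, hv1, hv2.symm, ?_, hv3, ?_, fun h => hv4 h.symm, Ne.symm hne', ?_⟩
  · intro h
    subst h
    have h5 : p' ∈ X := by
      rw [hYd, mem_insert] at hpY
      rcases hpY with h | h
      · exact absurd h hne'
      · exact mem_of_mem_erase h
    exact hX.1.1 p' h5 p hpX hv2
  · intro h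
    subst h
    have h5 : q ∈ Z := by
      rw [hZd]
      exact mem_insert_of_mem (mem_erase.2 ⟨Ne.symm hne', hqmY⟩)
    have h6 : v ∈ Z := by
      rw [hZd]
      exact mem_insert_self _ _
    exact hZ.1.1 q h5 v h6 hv1
  · intro h
    exact hY.1.1 q hqmY p' hpY h

end Pool.Agent.helper4.EC
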